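import Pool.Agent.U339.SI.Maps

set_option autoImplicit false

/-!
The part of the denominators composed of the primes of `S`, and the lengths of the cycles.
-/

namespace Pool.Agent.U339.SI

open Finset

theorem den_bound (S : Finset ℕ) (ε : ℝ) (hε : 0 < ε) : ∃ K : ℝ, 1 ≤ K ∧
    ∀ (p : ℕ), 1 ≤ p → ∀ x : ℚ, IsPer p x →
      (x.den : ℝ) ≤ K * (2 : ℝ) ^ (ε * p) * freeDen S x := by
  classical
  have hl2 : 0 < Real.log 2 := Real.log_pos (by norm_num)
  obtain ⟨K1, hK1, hsp⟩ := spart (pr S) (fun q hq => by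
      unfold pr at hq; rw [mem_filter, mem_filter] at hq; exact hq.1.2)
    (by unfold pr; rw [mem_filter]; tauto) (by unfold pr; rw [mem_filter]; tauto)
    (ε * Real.log 2) (by positivity)
  refine ⟨K1, hK1, fun p hp x hx => ?_⟩
  have hxeq := eq_pt hp hx.2
  have h3 := den_le_spart S hp (fun i => par (T^[i] x))
  rw [← hxeq] at h3
  have h4 := hsp p (O (fun i => par (T^[i] x)) p) hp (O_le _ p)
  have h5 : (x.den : ℝ) ≤ ((∏ q ∈ pr S, q ^ ((2 : ℤ) ^ p -
      3 ^ O (fun i => par (T^[i] x)) p).natAbs.factorization q : ℕ) : ℝ) *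
      (freeDen S x : ℝ) := by exact_mod_cast h3
  refine h5.trans ?_
  have hexp : Real.exp (ε * Real.log 2 * p) = (2 : ℝ) ^ (ε * p) := by
    rw [Real.rpow_def_of_pos (by norm_num)]; congr 1; ring
  rw [hexp] at h4
  exact mul_le_mul_of_nonneg_right h4 (by positivity)

theorem long_cycles (S : Finset ℕ) (A : ℝ) : ∃ k0 : ℕ, ∀ k : ℕ, k0 ≤ k →
    (∀ q : ℕ, q.Prime → q ∣ k → q ∈ S) → Odd k → ∀ (n : ℤ) (p : ℕ), IsCoprime n (k : ℤ) → 1 ≤ p →
      (Tk k)^[p] n = n → A * Real.log k ≤ p := by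
  have hl2 : 0 < Real.log 2 := Real.log_pos (by norm_num)
  set B : ℝ := max A 1 with hB
  have hB1 : 1 ≤ B := le_max_right _ _
  have hBA : A ≤ B := le_max_left _ _
  set ε : ℝ := 1 / (2 * B * Real.log 2) with hε
  have hε0 : 0 < ε := by positivity
  obtain ⟨K, hK, hden⟩ := den_bound S ε hε0
  obtain ⟨k0, hk0⟩ := exists_nat_ge (max 1 (Real.exp (2 * Real.log K)))
  refine ⟨k0, fun k hk hS hodd n p hcop hp hper => ?_⟩
  have hkr : max 1 (Real.exp (2 * Real.log K)) ≤ (k : ℝ) := hk0.trans (by exact_mod_cast hk)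
  have hk1 : (1 : ℝ) ≤ k := (le_max_left _ _).trans hkr
  have hkpos : 0 < k := by
    have : (0 : ℝ) < k := by linarith
    exact_mod_cast this
  have hlogk : 2 * Real.log K ≤ Real.log k := by
    have := (le_max_right 1 (Real.exp (2 * Real.log K))).trans hkr
    rwa [← Real.le_log_iff_exp_le (by linarith)] at this
  have hlogk0 : 0 ≤ Real.log k := Real.log_nonneg hk1
  have hodd' : Odd ((k : ℕ) : ℤ) := by exact_mod_cast hodd
  set x : ℚ := (n : ℚ) / ((k : ℤ) : ℚ) with hx
  have hxden : x.den = k := den_div hkpos hcop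
  have hxper : IsPer p x := by
    refine ⟨by rw [hxden]; exact hodd, ?_⟩
    rw [hx, T_iter_div hodd', hper]
  have h1 := hden p hp x hxper
  rw [freeDen_eq_one (by rw [hxden]; exact hS), hxden, Nat.cast_one, mul_one] at h1
  have h2 := Real.log_le_log (by linarith) h1
  rw [Real.log_mul (by positivity) (by positivity), Real.log_rpow (by norm_num)] at h2
  have h3 : ε * p * Real.log 2 = p / (2 * B) := by
    rw [hε]; field_simp
  rw [h3] at h2
  have h4 : Real.log k / 2 ≤ p / (2 * B) := by linarith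
  rw [div_le_div_iff₀ (by norm_num) (by positivity)] at h4
  have h5 : B * Real.log k ≤ p := by nlinarith
  exact (mul_le_mul_of_nonneg_right hBA hlogk0).trans h5

end Pool.Agent.U339.SI
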