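import Pool.Agent.U339.SI.Defs

set_option autoImplicit false

/-!
The periodic points of the 3x+1 map on the rational numbers with odd denominator and the parity words.
-/

namespace Pool.Agent.U339.SI

open Finset

lemma num_mul {m d : ℤ} (hd : d ≠ 0) : ((m : ℚ) / d).num * d = m * ((m : ℚ) / d).den := by
  have h := Rat.num_div_den ((m : ℚ) / d)
  have hd' : (d : ℚ) ≠ 0 := by exact_mod_cast hd
  have hden : ((((m : ℚ) / d).den : ℕ) : ℚ) ≠ 0 := by exact_mod_cast ((m : ℚ) / d).den_nz
  rw [div_eq_div_iff hden hd'] at h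
  exact_mod_cast h

lemma odd_ne {d : ℤ} (hd : Odd d) : d ≠ 0 := by
  rintro rfl
  exact absurd hd (by decide)

lemma odd_den {m d : ℤ} (hd : Odd d) : Odd ((m : ℚ) / d).den := by
  have h := Rat.den_dvd m d
  rw [Rat.divInt_eq_div] at h
  have h2 : Odd ((((m : ℚ) / d).den : ℕ) : ℤ) := by
    obtain ⟨k, hk⟩ := h
    rw [hk] at hd
    exact (Int.odd_mul.1 hd).1
  exact_mod_cast h2

lemma even_num_iff {m d : ℤ} (hd : Odd d) : Even ((m : ℚ) / d).num ↔ Even m := by
  have h := num_mul (m := m) (odd_ne hd)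
  have hden : Odd ((((m : ℚ) / d).den : ℕ) : ℤ) := by exact_mod_cast odd_den (m := m) hd
  constructor
  · intro he
    have h1 : Even (m * ((((m : ℚ) / d).den : ℕ) : ℤ)) := by rw [← h]; exact he.mul_right _
    rcases Int.even_mul.1 h1 with h2 | h2
    · exact h2
    · exact absurd h2 (Int.not_even_iff_odd.2 hden)
  · intro he
    have h1 : Even (((m : ℚ) / d).num * d) := by rw [h]; exact he.mul_right _
    rcases Int.even_mul.1 h1 with h2 | h2
    · exact h2
    · exact absurd h2 (Int.not_even_iff_odd.2 hd)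

/-- the number of the `i < n` with `b i` -/
def O (b : ℕ → Bool) : ℕ → ℕ
  | 0 => 0
  | n + 1 => O b n + (if b n then 1 else 0)

/-- the constant term -/
def C (b : ℕ → Bool) : ℕ → ℕ
  | 0 => 0
  | n + 1 => if b n then 3 * C b n + 2 ^ n else C b n

lemma O_succ (b : ℕ → Bool) (n : ℕ) : O b (n + 1) = O b n + (if b n then 1 else 0) := rfl

lemma C_succ (b : ℕ → Bool) (n : ℕ) : C b (n + 1) = if b n then 3 * C b n + 2 ^ n else C b n := rfl

/-- one step with prescribed parity -/
def step (b : Bool) (x : ℚ) : ℚ := if b then (3 * x + 1) / 2 else x / 2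

/-- the parity -/
def par (x : ℚ) : Bool := decide (¬ Even x.num)

lemma T_eq (x : ℚ) : T x = step (par x) x := by
  unfold T step par
  by_cases h : Even x.num <;> simp [h]

lemma affine (b : ℕ → Bool) (y : ℕ → ℚ) (n : ℕ) (h : ∀ i < n, y (i + 1) = step (b i) (y i)) :
    y n = (3 ^ O b n * y 0 + C b n) / 2 ^ n := by
  induction n with
  | zero => simp [O, C]
  | succ n ih =>
    rw [h n (Nat.lt_succ_self n), ih fun i hi => h i (by omega), O_succ, C_succ]
    unfold step
    by_cases hb : b n = true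
    · simp only [hb, if_true]
      push_cast
      field_simp
      ring
    · have hb' : b n = false := by simpa using hb
      simp only [hb', Bool.false_eq_true, if_false, add_zero]
      field_simp
      ring

lemma O_le (b : ℕ → Bool) (n : ℕ) : O b n ≤ n := by
  induction n with
  | zero => simp [O]
  | succ n ih => rw [O_succ]; split_ifs <;> omega

lemma odd_M {p : ℕ} (hp : 1 ≤ p) (o : ℕ) : Odd ((2 : ℤ) ^ p - 3 ^ o) := by
  have h1 : Even ((2 : ℤ) ^ p) := (Int.even_pow.2 ⟨by decide, by omega⟩)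
  have h2 : Odd ((3 : ℤ) ^ o) := Odd.pow (by decide)
  exact h1.sub_odd h2

lemma M_ne {p : ℕ} (hp : 1 ≤ p) (o : ℕ) : (2 : ℚ) ^ p - 3 ^ o ≠ 0 := by
  have h := odd_ne (odd_M hp o)
  exact_mod_cast h

lemma fixed {b : ℕ → Bool} {y : ℕ → ℚ} {p : ℕ} (hp : 1 ≤ p)
    (h : ∀ i < p, y (i + 1) = step (b i) (y i)) (hy : y p = y 0) :
    y 0 = (((C b p : ℕ) : ℤ) : ℚ) / (((2 : ℤ) ^ p - 3 ^ O b p : ℤ) : ℚ) := by
  have h1 := affine b y p h
  rw [hy] at h1
  have h2 := M_ne hp (O b p)
  have h3 : ((2 : ℚ) ^ p) ≠ 0 := by positivity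
  rw [eq_div_iff h3] at h1
  push_cast
  rw [eq_div_iff h2]
  linarith

lemma C_parity (b : ℕ → Bool) (n : ℕ) : Even (C b (n + 1)) ↔ b 0 = false := by
  induction n with
  | zero =>
    rw [C_succ]
    by_cases hb : b 0 = true
    · simp [hb, C]
    · have hb' : b 0 = false := by simpa using hb
      simp [hb', C]
  | succ n ih =>
    rw [← ih, C_succ]
    by_cases hb : b (n + 1) = true
    · simp only [hb, if_true]
      rw [Nat.even_add, Nat.even_mul]
      have h2 : Even (2 ^ (n + 1)) := by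
        rw [Nat.even_pow]; exact ⟨by decide, by omega⟩
      simp only [h2, iff_true]
      constructor
      · rintro (h | h)
        · exact absurd h (by decide)
        · exact h
      · exact Or.inr
    · have hb' : b (n + 1) = false := by simpa using hb
      simp only [hb', Bool.false_eq_true, if_false]

/-- the orbit with prescribed parities -/
def orb (b : ℕ → Bool) (x : ℚ) : ℕ → ℚ
  | 0 => x
  | n + 1 => step (b n) (orb b x n)

/-- the periodic point with the parity word `b 0, …, b (p - 1)` -/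
def pt (p : ℕ) (b : ℕ → Bool) : ℚ := (((C b p : ℕ) : ℤ) : ℚ) / (((2 : ℤ) ^ p - 3 ^ O b p : ℤ) : ℚ)

lemma orb_pt {p : ℕ} (hp : 1 ≤ p) (b : ℕ → Bool) : orb b (pt p b) p = pt p b := by
  have h1 := affine b (orb b (pt p b)) p fun i _ => rfl
  rw [h1]
  change (3 ^ O b p * pt p b + C b p) / 2 ^ p = pt p b
  unfold pt
  have h2 := M_ne hp (O b p)
  push_cast
  rw [div_eq_iff (by positivity)]
  field_simp
  ring

lemma orb_shift (b : ℕ → Bool) (x : ℚ) (i n : ℕ) :
    orb (fun k => b (k + i)) (orb b x i) n = orb b x (n + i) := by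
  induction n with
  | zero => simp [orb]
  | succ n ih =>
    rw [show n + 1 + i = (n + i) + 1 by ring]
    change step (b (n + i)) (orb (fun k => b (k + i)) (orb b x i) n) = step (b (n + i)) (orb b x (n + i))
    rw [ih]

lemma orb_periodic {p : ℕ} (hp : 1 ≤ p) {b : ℕ → Bool} (hb : ∀ i, b (i + p) = b i) (i : ℕ) :
    orb b (pt p b) (i + p) = orb b (pt p b) i := by
  have h := orb_shift b (pt p b) p i
  rw [← h, orb_pt hp b]
  have : (fun k => b (k + p)) = b := funext hb
  rw [this]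

/-- every point of the orbit is the periodic point of the shifted word -/
lemma orb_eq_pt {p : ℕ} (hp : 1 ≤ p) {b : ℕ → Bool} (hb : ∀ i, b (i + p) = b i) (i : ℕ) :
    orb b (pt p b) i = pt p (fun k => b (k + i)) := by
  have h := fixed (b := fun k => b (k + i)) (y := fun n => orb b (pt p b) (n + i)) hp
    (fun n _ => by
      change orb b (pt p b) (n + 1 + i) = step (b (n + i)) (orb b (pt p b) (n + i))
      rw [show n + 1 + i = (n + i) + 1 by ring]
      rfl) (by
      change orb b (pt p b) (p + i) = orb b (pt p b) (0 + i)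
      rw [add_comm p i, orb_periodic hp hb, zero_add])
  have h2 : orb b (pt p b) i = pt p (fun k => b (k + i)) := by
    rw [show pt p (fun k => b (k + i)) = (((C (fun k => b (k + i)) p : ℕ) : ℤ) : ℚ) /
      (((2 : ℤ) ^ p - 3 ^ O (fun k => b (k + i)) p : ℤ) : ℚ) from rfl, ← h]
    simp
  exact h2

lemma par_pt {p : ℕ} (hp : 1 ≤ p) (b : ℕ → Bool) : par (pt p b) = b 0 := by
  have h0 : Even (pt p b).num ↔ b 0 = false := by
    unfold pt
    rw [even_num_iff (odd_M hp _)]
    obtain ⟨n, rfl⟩ : ∃ n, p = n + 1 := ⟨p - 1, by omega⟩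
    rw [Int.even_coe_nat, C_parity b n]
  unfold par
  rw [Bool.eq_iff_iff, decide_eq_true_iff, h0]
  simp

lemma odd_den_pt {p : ℕ} (hp : 1 ≤ p) (b : ℕ → Bool) : Odd (pt p b).den := odd_den (odd_M hp _)

lemma iter_pt {p : ℕ} (hp : 1 ≤ p) {b : ℕ → Bool} (hb : ∀ i, b (i + p) = b i) (i : ℕ) :
    T^[i] (pt p b) = orb b (pt p b) i := by
  induction i with
  | zero => rfl
  | succ i ih =>
    rw [Function.iterate_succ_apply', ih, T_eq]
    change _ = step (b i) (orb b (pt p b) i)
    congr 1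
    rw [orb_eq_pt hp hb, par_pt hp]
    simp

lemma par_iter_pt {p : ℕ} (hp : 1 ≤ p) {b : ℕ → Bool} (hb : ∀ i, b (i + p) = b i) (i : ℕ) :
    par (T^[i] (pt p b)) = b i := by
  rw [iter_pt hp hb, orb_eq_pt hp hb, par_pt hp]
  simp

lemma isPer_pt {p : ℕ} (hp : 1 ≤ p) {b : ℕ → Bool} (hb : ∀ i, b (i + p) = b i) :
    IsPer p (pt p b) := by
  refine ⟨odd_den_pt hp b, ?_⟩
  rw [iter_pt hp hb, orb_pt hp]

lemma eq_pt {p : ℕ} (hp : 1 ≤ p) {x : ℚ} (hx : T^[p] x = x) :
    x = pt p (fun i => par (T^[i] x)) := by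
  have h := fixed (b := fun i => par (T^[i] x)) (y := fun i => T^[i] x) hp (fun i _ => by
    change T^[i + 1] x = _
    rw [Function.iterate_succ_apply', T_eq]) (by
    change T^[p] x = T^[0] x
    rw [hx]; rfl)
  exact h

/-- `pt` depends on the first `p` letters only -/
lemma OC_congr {b b' : ℕ → Bool} (n : ℕ) (h : ∀ i < n, b i = b' i) : O b n = O b' n ∧ C b n = C b' n := by
  induction n with
  | zero => exact ⟨rfl, rfl⟩
  | succ n ih =>
    obtain ⟨h1, h2⟩ := ih fun i hi => h i (by omega)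
    rw [O_succ, C_succ, h1, h2, h n (Nat.lt_succ_self n), O_succ, C_succ]
    exact ⟨rfl, rfl⟩

lemma pt_congr {b b' : ℕ → Bool} {p : ℕ} (h : ∀ i < p, b i = b' i) : pt p b = pt p b' := by
  obtain ⟨h1, h2⟩ := OC_congr p h
  unfold pt
  rw [h1, h2]

/-- periodic extension of a word -/
def ext {p : ℕ} (hp : 1 ≤ p) (w : Fin p → Bool) (i : ℕ) : Bool := w ⟨i % p, Nat.mod_lt _ hp⟩

lemma ext_periodic {p : ℕ} (hp : 1 ≤ p) (w : Fin p → Bool) (i : ℕ) : ext hp w (i + p) = ext hp w i := by
  unfold ext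
  congr 1
  simp

lemma ext_lt {p : ℕ} (hp : 1 ≤ p) (w : Fin p → Bool) (i : Fin p) : ext hp w i = w i := by
  unfold ext
  congr 1
  ext
  simp [Nat.mod_eq_of_lt i.2]

lemma pt_injective {p : ℕ} (hp : 1 ≤ p) :
    Function.Injective (fun w : Fin p → Bool => pt p (ext hp w)) := by
  intro w w' h
  have h' : pt p (ext hp w) = pt p (ext hp w') := h
  funext i
  have h1 := par_iter_pt hp (ext_periodic hp w) i
  have h2 := par_iter_pt hp (ext_periodic hp w') i
  rw [← ext_lt hp w i, ← ext_lt hp w' i, ← h1, ← h2, h']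

/-- the finite set of the periodic points -/
noncomputable def per {p : ℕ} (hp : 1 ≤ p) : Finset ℚ := by
  classical
  exact Finset.univ.image fun w : Fin p → Bool => pt p (ext hp w)

lemma mem_per {p : ℕ} (hp : 1 ≤ p) {x : ℚ} : x ∈ per hp ↔ IsPer p x := by
  classical
  unfold per
  rw [mem_image]
  constructor
  · rintro ⟨w, -, rfl⟩
    exact isPer_pt hp (ext_periodic hp w)
  · rintro ⟨-, hx⟩
    refine ⟨fun i => par (T^[i] x), mem_univ _, ?_⟩
    conv_rhs => rw [eq_pt hp hx]
    refine pt_congr fun i hi => ?_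
    exact ext_lt hp _ ⟨i, hi⟩

lemma card_per {p : ℕ} (hp : 1 ≤ p) : (per hp).card = 2 ^ p := by
  classical
  unfold per
  rw [card_image_of_injective _ (pt_injective hp)]
  simp

lemma sum_per {p : ℕ} (hp : 1 ≤ p) (f : ℚ → ℝ) :
    ∑ x ∈ per hp, f x = ∑ w : Fin p → Bool, f (pt p (ext hp w)) := by
  classical
  unfold per
  rw [sum_image]
  intro w _ w' _ h
  exact pt_injective hp h

end Pool.Agent.U339.SI
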