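import Pool.Agent.W180.RR.Rid

set_option autoImplicit false

/-!
The part of `2 ^ p - 3 ^ o` composed of the primes of a finite set is at most `C exp (ε p)`.
-/

namespace Pool.Agent.U339.SI

open Finset

/-- the `q`-adic absolute value on `ℚ` -/
noncomputable def pav (q : ℕ) (hq : q.Prime) : AbsoluteValue ℚ ℝ :=
  haveI : Fact q.Prime := ⟨hq⟩
  Rat.AbsoluteValue.padic q

lemma pav_int (q : ℕ) (hq : q.Prime) (n : ℤ) : pav q hq (n : ℚ) ≤ 1 := by
  have : Fact q.Prime := ⟨hq⟩
  exact Rat.AbsoluteValue.padic_le_one q n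

lemma pav_na (q : ℕ) (hq : q.Prime) : IsNonarchimedean (pav q hq) := by
  have : Fact q.Prime := ⟨hq⟩
  intro x y
  change ((padicNorm q (x + y) : ℚ) : ℝ) ≤ max ((padicNorm q x : ℚ) : ℝ) ((padicNorm q y : ℚ) : ℝ)
  have h := padicNorm.nonarchimedean (p := q) (q := x) (r := y)
  exact_mod_cast h

lemma pav_eq (q : ℕ) (hq : q.Prime) {n : ℤ} (hn : n ≠ 0) :
    pav q hq (n : ℚ) = ((q : ℝ) ^ (n.natAbs.factorization q))⁻¹ := by
  have : Fact q.Prime := ⟨hq⟩
  change ((padicNorm q (n : ℚ) : ℚ) : ℝ) = _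
  rw [padicNorm.eq_zpow_of_nonzero (by exact_mod_cast hn), padicValRat.of_int,
    padicValInt, ← Nat.factorization_def _ hq, zpow_neg, zpow_natCast]
  push_cast
  rfl

lemma prod_part_dvd (P : Finset ℕ) (hP : ∀ q ∈ P, q.Prime) (m : ℕ) :
    (∏ q ∈ P, q ^ m.factorization q) ∣ m := by
  classical
  have h : (∏ q ∈ P, (q : ℤ) ^ m.factorization q) ∣ (m : ℤ) := by
    refine Finset.prod_dvd_of_coprime ?_ ?_
    · intro a ha b hb hab
      exact IsCoprime.pow ((Nat.isCoprime_iff_coprime).2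
        ((Nat.coprime_primes (hP a ha) (hP b hb)).2 hab))
    · intro q _
      have := Nat.ordProj_dvd m q
      exact_mod_cast this
  exact_mod_cast h

theorem spart (P : Finset ℕ) (hP : ∀ q ∈ P, q.Prime) (h2 : 2 ∉ P) (h3 : 3 ∉ P) (ε : ℝ) (hε : 0 < ε) :
    ∃ K : ℝ, 1 ≤ K ∧ ∀ p o : ℕ, 1 ≤ p → o ≤ p →
      ((∏ q ∈ P, q ^ ((2 : ℤ) ^ p - 3 ^ o).natAbs.factorization q : ℕ) : ℝ) ≤
        K * Real.exp (ε * p) := by
  classical
  set P' : Finset ℕ := insert 2 (insert 3 P) with hP'
  have hPr : ∀ q ∈ P', q.Prime := by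
    intro q hq
    rw [hP', mem_insert, mem_insert] at hq
    rcases hq with rfl | rfl | hq
    · norm_num
    · norm_num
    · exact hP q hq
  set fs : {q // q ∈ P'} → AbsoluteValue ℚ ℝ := fun q => pav q.1 (hPr q.1 q.2) with hfs
  set g : Polynomial ℤ := Polynomial.X * (Polynomial.X - Polynomial.C 1) *
    (Polynomial.X - Polynomial.C 2) with hg
  have hmon : g.Monic := by
    rw [hg]
    exact (Polynomial.monic_X.mul (Polynomial.monic_X_sub_C 1)).mul (Polynomial.monic_X_sub_C 2)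
  have hdeg : 0 < g.natDegree := by
    rw [hg, Polynomial.Monic.natDegree_mul (Polynomial.monic_X.mul (Polynomial.monic_X_sub_C 1))
      (Polynomial.monic_X_sub_C 2), Polynomial.natDegree_X_sub_C]
    omega
  have hroot : ∀ z : ℚ, z = 0 ∨ z = 1 ∨ z = 2 → Polynomial.aeval z g = 0 := by
    intro z hz
    rw [hg]
    simp only [map_mul, map_sub, Polynomial.aeval_X, Polynomial.aeval_C]
    rcases hz with rfl | rfl | rfl
    · simp
    · simp
    · norm_num
  set ξ : {q // q ∈ P'} → ℚ := fun q => if q.1 = 2 then 0 else if q.1 = 3 then 1 else 2 with hξ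
  have hprod : ∀ n : ℤ, n ≠ 0 → 1 ≤ Rat.AbsoluteValue.real (n : ℚ) * ∏ i, fs i (n : ℚ) := by
    intro n hn
    have e1 : ∏ i, fs i (n : ℚ) = ((∏ q ∈ P', q ^ n.natAbs.factorization q : ℕ) : ℝ)⁻¹ := by
      rw [hfs, Finset.univ_eq_attach]
      push_cast
      rw [← Finset.prod_inv_distrib, ← Finset.prod_attach P' fun q => ((q : ℝ) ^ n.natAbs.factorization q)⁻¹]
      exact Finset.prod_congr rfl fun q _ => pav_eq q.1 (hPr q.1 q.2) hn
    have e2 : Rat.AbsoluteValue.real (n : ℚ) = (n.natAbs : ℝ) := by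
      rw [Rat.AbsoluteValue.real_eq_abs, Nat.cast_natAbs]
      push_cast
      rfl
    have hd := prod_part_dvd P' hPr n.natAbs
    have hpos : 0 < n.natAbs := Int.natAbs_pos.2 hn
    have hle : (∏ q ∈ P', q ^ n.natAbs.factorization q) ≤ n.natAbs := Nat.le_of_dvd hpos hd
    have hpos2 : 0 < ∏ q ∈ P', q ^ n.natAbs.factorization q := Nat.pos_of_dvd_of_pos hd hpos
    rw [e1, e2, ← div_eq_mul_inv, le_div_iff₀ (by exact_mod_cast hpos2), one_mul]
    exact_mod_cast hle
  set ε1 : ℝ := ε / (2 * Real.log 3) with hε1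
  have hl3 : 0 < Real.log 3 := Real.log_pos (by norm_num)
  have hl2 : 0 < Real.log 2 := Real.log_pos (by norm_num)
  have hε10 : 0 < ε1 := by positivity
  obtain ⟨C0, hC0, hR0⟩ := Pool.Agent.W180.RR.ridout Rat.AbsoluteValue.real fs
    (fun i => pav_na _ _) (fun i n => pav_int _ _ n) hprod g hmon hdeg 0 ξ
    (hroot 0 (Or.inl rfl)) (fun i => hroot _ (by
      rw [hξ]; dsimp only; split_ifs <;> simp)) ε1 hε10
  obtain ⟨C1, hC1, hR1⟩ := Pool.Agent.W180.RR.ridout Rat.AbsoluteValue.real fs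
    (fun i => pav_na _ _) (fun i n => pav_int _ _ n) hprod g hmon hdeg 1 ξ
    (hroot 1 (Or.inr (Or.inl rfl))) (fun i => hroot _ (by
      rw [hξ]; dsimp only; split_ifs <;> simp)) ε1 hε10
  refine ⟨Real.exp (C0 + C1), Real.one_le_exp (by linarith), ?_⟩
  intro p o hp ho
  set m : ℤ := 2 ^ p - 3 ^ o with hm
  have hm0 : m ≠ 0 := by
    have h1 : Even ((2 : ℤ) ^ p) := (Int.even_pow.2 ⟨by decide, by omega⟩)
    have h2 : Odd ((3 : ℤ) ^ o) := Odd.pow (by decide)
    have h4 : Odd m := h1.sub_odd h2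
    intro h
    rw [h] at h4
    exact absurd h4 (by decide)
  set X : ℤ := 2 ^ (p + 1) with hX
  set Y : ℤ := 2 ^ (p + 1) - 3 ^ o with hY
  have hcop : IsCoprime X Y := by
    have h1 : IsCoprime ((2 : ℤ) ^ (p + 1)) (3 ^ o) :=
      IsCoprime.pow (by norm_num : IsCoprime (2 : ℤ) 3)
    obtain ⟨u, v, huv⟩ := h1
    refine ⟨u + v, -v, ?_⟩
    rw [hX, hY, ← huv]; ring
  have hXY1 : X - Y = 3 ^ o := by rw [hX, hY]; ring
  have hXY2 : X - 2 * Y = -2 * m := by rw [hX, hY, hm, pow_succ]; ring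
  have hX0 : X ≠ 0 := by rw [hX]; positivity
  have h3o : (3 : ℤ) ^ o ≠ 0 := by positivity
  have h2m : -2 * m ≠ 0 := mul_ne_zero (by norm_num) hm0
  -- the forms
  have hform : ∀ i : {q // q ∈ P'}, (X : ℚ) - ξ i * (Y : ℚ) =
      (((if i.1 = 2 then X else if i.1 = 3 then 3 ^ o else -2 * m) : ℤ) : ℚ) := by
    intro i
    rw [hξ]
    dsimp only
    split_ifs
    · push_cast; ring
    · rw [← hXY1]; push_cast; ring
    · rw [← hXY2]; push_cast; ring
  have hformne : ∀ i : {q // q ∈ P'}, (X : ℚ) - ξ i * (Y : ℚ) ≠ 0 := by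
    intro i
    rw [hform i]
    split_ifs
    · exact_mod_cast hX0
    · exact_mod_cast h3o
    · exact_mod_cast h2m
  -- the sum over the places
  set s : ℕ := ∏ q ∈ P, q ^ m.natAbs.factorization q with hs
  have hspos : 0 < s := by
    rw [hs]
    exact Finset.prod_pos fun q hq => pow_pos (hP q hq).pos _
  have hsum : ∑ i, - Real.log (fs i ((X : ℚ) - ξ i * (Y : ℚ))) =
      ((p : ℝ) + 1) * Real.log 2 + o * Real.log 3 + Real.log s := by
    set F : ℕ → ℝ := fun q => if q = 2 then ((p : ℝ) + 1) * Real.log 2 else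
      if q = 3 then o * Real.log 3 else (m.natAbs.factorization q : ℝ) * Real.log q with hF
    have e1 : ∀ i : {q // q ∈ P'}, - Real.log (fs i ((X : ℚ) - ξ i * (Y : ℚ))) = F i.1 := by
      intro i
      rw [hform i, hfs, hF]
      dsimp only
      split_ifs with c1 c2
      · rw [pav_eq _ _ hX0, Real.log_inv, neg_neg, Real.log_pow, c1, hX]
        congr 1
        have : ((2 : ℤ) ^ (p + 1)).natAbs = 2 ^ (p + 1) := by
          rw [Int.natAbs_pow]; rfl
        rw [this, Nat.Prime.factorization_pow (by norm_num)]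
        simp
      · rw [pav_eq _ _ h3o, Real.log_inv, neg_neg, Real.log_pow, c2]
        congr 1
        have : ((3 : ℤ) ^ o).natAbs = 3 ^ o := by
          rw [Int.natAbs_pow]; rfl
        rw [this, Nat.Prime.factorization_pow (by norm_num)]
        simp
      · rw [pav_eq _ _ h2m, Real.log_inv, neg_neg, Real.log_pow]
        congr 2
        have hne : m.natAbs ≠ 0 := Int.natAbs_ne_zero.2 hm0
        rw [Int.natAbs_mul, Nat.factorization_mul (by norm_num) hne]
        have : (Int.natAbs (-2)).factorization i.1 = 0 := by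
          have h5 : Int.natAbs (-2) = 2 := rfl
          rw [h5, Nat.Prime.factorization (by norm_num)]
          rw [Finsupp.single_apply, if_neg (fun h => c1 h.symm)]
        rw [Finsupp.add_apply, this, zero_add]
    rw [Finset.sum_congr rfl fun i _ => e1 i, Finset.univ_eq_attach, Finset.sum_attach P' F, hP',
      Finset.sum_insert (by rw [mem_insert]; push Not; exact ⟨by norm_num, h2⟩), Finset.sum_insert h3]
    have e2 : ∑ q ∈ P, F q = Real.log s := by
      rw [hs]
      push_cast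
      rw [Real.log_prod (fun q hq => by have := (hP q hq).pos; positivity)]
      refine Finset.sum_congr rfl fun q hq => ?_
      have hq2 : q ≠ 2 := fun h => h2 (h ▸ hq)
      have hq3 : q ≠ 3 := fun h => h3 (h ▸ hq)
      rw [hF]
      dsimp only
      rw [if_neg hq2, if_neg hq3, Real.log_pow]
    rw [e2, hF]
    dsimp only
    rw [if_pos rfl, if_neg (by norm_num), if_pos rfl]
    ring
  -- the height
  set H : ℝ := Pool.Agent.W180.RR.HH X Y with hH
  have hH1 : 1 ≤ H := Pool.Agent.W180.RR.HH_ge_one (Or.inl hX0)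
  have hHpos : 0 < H := by linarith
  have hXr : (X : ℝ) = 2 ^ (p + 1) := by rw [hX]; push_cast; rfl
  have hHle : H ≤ max ((2 : ℝ) ^ (p + 1)) (3 ^ o) := by
    rw [hH]
    unfold Pool.Agent.W180.RR.HH
    rw [hXr, show (Y : ℝ) = 2 ^ (p + 1) - 3 ^ o by rw [hY]; push_cast; rfl]
    have a1 : (0 : ℝ) < 2 ^ (p + 1) := by positivity
    have a2 : (0 : ℝ) < 3 ^ o := by positivity
    refine max_le ?_ ?_
    · rw [abs_of_pos a1]; exact le_max_left _ _
    · rw [abs_le]
      constructor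
      · have := le_max_right ((2 : ℝ) ^ (p + 1)) (3 ^ o); linarith
      · have := le_max_left ((2 : ℝ) ^ (p + 1)) (3 ^ o); linarith
  have hlogH : Real.log H ≤ ((p : ℝ) + 1) * Real.log 3 := by
    have hle : H ≤ 3 ^ (p + 1) := by
      refine hHle.trans (max_le (pow_le_pow_left₀ (by norm_num) (by norm_num) _) ?_)
      exact pow_le_pow_right₀ (by norm_num) (by omega)
    have := Real.log_le_log hHpos hle
    rw [Real.log_pow] at this
    push_cast at this
    exact this
  have hp1 : (1 : ℝ) ≤ p := by exact_mod_cast hp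
  have hfin : ∀ t : ℝ, Real.log s ≤ t → t ≤ ε1 * Real.log H + (C0 + C1) →
      ((s : ℕ) : ℝ) ≤ Real.exp (C0 + C1) * Real.exp (ε * p) := by
    intro t h4 h5
    have h6 : ε1 * Real.log H ≤ ε * p := by
      have : ε1 * Real.log H ≤ ε1 * (((p : ℝ) + 1) * Real.log 3) :=
        mul_le_mul_of_nonneg_left hlogH hε10.le
      refine this.trans ?_
      have e3 : ε1 * (((p : ℝ) + 1) * Real.log 3) = ε * ((p + 1) / 2) := by
        rw [hε1]; field_simp
      rw [e3]
      apply mul_le_mul_of_nonneg_left _ hε.le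
      linarith
    rw [← Real.exp_add, ← Real.log_le_iff_le_exp (by exact_mod_cast hspos)]
    linarith
  rcases le_or_gt ((3 : ℝ) ^ o) (2 ^ (p + 1)) with hcase | hcase
  · have h4 := hR1 X Y hcop (by
      have : (X : ℚ) - 1 * (Y : ℚ) = ((3 ^ o : ℤ) : ℚ) := by rw [← hXY1]; push_cast; ring
      rw [this]; exact_mod_cast h3o) hformne
    rw [hsum, show (X : ℚ) - 1 * (Y : ℚ) = ((3 ^ o : ℤ) : ℚ) by rw [← hXY1]; push_cast; ring,
      Rat.AbsoluteValue.real_eq_abs] at h4
    have e5 : ((|((3 ^ o : ℤ) : ℚ)| : ℚ) : ℝ) = (3 : ℝ) ^ o := by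
      push_cast
      rw [abs_of_pos (by positivity)]
    rw [← hH] at h4
    rw [e5, Real.log_div (by positivity) hHpos.ne', Real.log_pow] at h4
    have h6 : Real.log H ≤ ((p : ℝ) + 1) * Real.log 2 := by
      have := Real.log_le_log hHpos (hHle.trans (max_le le_rfl hcase))
      rw [Real.log_pow] at this
      push_cast at this
      exact this
    refine hfin (ε1 * Real.log H + C1) ?_ (by linarith)
    nlinarith
  · have h4 := hR0 X Y hcop (by
      rw [zero_mul, sub_zero]; exact_mod_cast hX0) hformne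
    rw [hsum, zero_mul, sub_zero, Rat.AbsoluteValue.real_eq_abs] at h4
    have e5 : ((|(X : ℚ)| : ℚ) : ℝ) = (2 : ℝ) ^ (p + 1) := by
      rw [Rat.cast_abs, Rat.cast_intCast, hXr, abs_of_pos (by positivity)]
    rw [← hH] at h4
    rw [e5, Real.log_div (by positivity) hHpos.ne', Real.log_pow] at h4
    have h6 : Real.log H ≤ (o : ℝ) * Real.log 3 := by
      have := Real.log_le_log hHpos (hHle.trans (max_le hcase.le le_rfl))
      rw [Real.log_pow] at this
      exact this
    refine hfin (ε1 * Real.log H + C0) ?_ (by linarith)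
    push_cast at h4
    nlinarith

end Pool.Agent.U339.SI
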