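import Pool.Agent.U339.SI.Small
import Pool.Agent.U339.SI.SPart
import Pool.Agent.H510R2.Div

set_option autoImplicit false

/-!
The number of the periodic points whose denominator has a small part prime to `S`.
-/

namespace Pool.Agent.U339.SI

open Finset

lemma C_eq_zero {b : ℕ → Bool} {n : ℕ} (h : O b n = 0) : C b n = 0 := by
  induction n with
  | zero => rfl
  | succ n ih =>
    rw [O_succ] at h
    by_cases hb : b n = true
    · rw [hb] at h; simp at h
    · rw [C_succ, if_neg hb]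
      exact ih (by omega)

/-- the denominator divides `2 ^ p - 3 ^ o` -/
lemma den_pt_dvd (p : ℕ) (b : ℕ → Bool) :
    (pt p b).den ∣ ((2 : ℤ) ^ p - 3 ^ O b p).natAbs := by
  have h := Rat.den_dvd ((C b p : ℕ) : ℤ) ((2 : ℤ) ^ p - 3 ^ O b p)
  rw [Rat.divInt_eq_div] at h
  exact Int.natCast_dvd.1 h

lemma not_three_dvd {p : ℕ} (hp : 1 ≤ p) (b : ℕ → Bool) : ¬ 3 ∣ (pt p b).den := by
  intro h
  by_cases ho : O b p = 0
  · have h0 : pt p b = 0 := by
      unfold pt
      rw [C_eq_zero ho]; simp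
    rw [h0] at h
    revert h
    decide
  · have h1 : (3 : ℤ) ∣ (2 : ℤ) ^ p - 3 ^ O b p := by
      have := h.trans (den_pt_dvd p b)
      exact Int.natCast_dvd.2 this
    have h2 : (3 : ℤ) ∣ 3 ^ O b p := dvd_pow_self 3 ho
    have h3 : (3 : ℤ) ∣ 2 ^ p := by
      have := dvd_add h1 h2
      rwa [sub_add_cancel] at this
    have h4 := Int.prime_three.dvd_of_dvd_pow h3
    revert h4
    decide

lemma den_eq (S : Finset ℕ) (x : ℚ) :
    x.den = (∏ q ∈ x.den.primeFactors ∩ S, q ^ x.den.factorization q) * freeDen S x := by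
  classical
  unfold freeDen
  rw [Finset.prod_inter_mul_prod_diff]
  have h := Nat.prod_factorization_pow_eq_self x.den_nz
  conv_lhs => rw [← h]
  rfl

lemma freeDen_pos (S : Finset ℕ) (x : ℚ) : 1 ≤ freeDen S x := by
  unfold freeDen
  exact Nat.one_le_iff_ne_zero.2 (Finset.prod_ne_zero_iff.2 fun q hq => by
    rw [mem_sdiff] at hq
    exact pow_ne_zero _ (Nat.prime_of_mem_primeFactors hq.1).ne_zero)

lemma freeDen_dvd (S : Finset ℕ) (x : ℚ) : freeDen S x ∣ x.den := by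
  conv_rhs => rw [den_eq S x]
  exact Dvd.intro_left _ rfl

lemma freeDen_le (S : Finset ℕ) (x : ℚ) : freeDen S x ≤ x.den :=
  Nat.le_of_dvd x.den_pos (freeDen_dvd S x)

/-- the primes in `S` other than `2` and `3` -/
def pr (S : Finset ℕ) : Finset ℕ := (S.filter Nat.Prime).filter fun q => q ≠ 2 ∧ q ≠ 3

lemma den_le_spart (S : Finset ℕ) {p : ℕ} (hp : 1 ≤ p) (b : ℕ → Bool) :
    (pt p b).den ≤ (∏ q ∈ pr S, q ^ ((2 : ℤ) ^ p - 3 ^ O b p).natAbs.factorization q) *
      freeDen S (pt p b) := by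
  classical
  set x := pt p b with hx
  set m := ((2 : ℤ) ^ p - 3 ^ O b p).natAbs with hm
  have hm0 : m ≠ 0 := Int.natAbs_ne_zero.2 (odd_ne (odd_M hp _))
  have hd : x.den ∣ m := den_pt_dvd p b
  conv_lhs => rw [den_eq S x]
  apply Nat.mul_le_mul_right
  have hsub : x.den.primeFactors ∩ S ⊆ pr S := by
    intro q hq
    rw [mem_inter] at hq
    have hqp := Nat.prime_of_mem_primeFactors hq.1
    have hqd := Nat.dvd_of_mem_primeFactors hq.1
    unfold pr
    rw [mem_filter, mem_filter]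
    refine ⟨⟨hq.2, hqp⟩, ?_, ?_⟩
    · rintro rfl
      have h1 := odd_den_pt hp b
      rw [← hx] at h1
      exact (Nat.not_even_iff_odd.2 h1) (even_iff_two_dvd.2 hqd)
    · rintro rfl
      exact not_three_dvd hp b hqd
  calc ∏ q ∈ x.den.primeFactors ∩ S, q ^ x.den.factorization q
      ≤ ∏ q ∈ x.den.primeFactors ∩ S, q ^ m.factorization q := by
        refine Finset.prod_le_prod' fun q hq => ?_
        have hqp := Nat.prime_of_mem_primeFactors (mem_inter.1 hq).1
        exact Nat.pow_le_pow_right hqp.pos ((Nat.factorization_le_iff_dvd x.den_nz hm0).2 hd q)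
    _ ≤ ∏ q ∈ pr S, q ^ m.factorization q := by
        refine Finset.prod_le_prod_of_subset_of_one_le' hsub fun q hq _ => ?_
        unfold pr at hq
        rw [mem_filter, mem_filter] at hq
        exact Nat.one_le_pow _ _ hq.1.2.pos

lemma M_le {p o : ℕ} (ho : o ≤ p) : ((2 : ℤ) ^ p - 3 ^ o).natAbs ≤ 3 ^ p := by
  have h1 : (2 : ℤ) ^ p ≤ 3 ^ p := pow_le_pow_left₀ (by norm_num) (by norm_num) p
  have h2 : (3 : ℤ) ^ o ≤ 3 ^ p := pow_le_pow_right₀ (by norm_num) ho
  have h3 : (0 : ℤ) < 2 ^ p := by positivity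
  have h4 : (0 : ℤ) < 3 ^ o := by positivity
  have h5 : (((2 : ℤ) ^ p - 3 ^ o).natAbs : ℤ) ≤ 3 ^ p := by
    rw [Int.natCast_natAbs, abs_le]
    constructor <;> linarith
  exact_mod_cast h5

theorem count (S : Finset ℕ) (ε : ℝ) (hε : 0 < ε) : ∃ K : ℝ, 1 ≤ K ∧
    ∀ (p : ℕ) (hp : 1 ≤ p) (D : ℝ), 1 ≤ D →
      (((per hp).filter fun x => (freeDen S x : ℝ) ≤ D).card : ℝ) ≤ K * Real.exp (ε * p) * D := by
  classical
  have hl3 : 0 < Real.log 3 := Real.log_pos (by norm_num)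
  obtain ⟨A, hA, hden⟩ := card_den
  obtain ⟨K1, hK1, hsp⟩ := spart (pr S) (fun q hq => by
      unfold pr at hq; rw [mem_filter, mem_filter] at hq; exact hq.1.2)
    (by unfold pr; rw [mem_filter]; tauto) (by unfold pr; rw [mem_filter]; tauto) (ε / 4) (by positivity)
  obtain ⟨Cd, hCd, hdiv⟩ := Pool.Agent.H510R2.divisor_bound (ε / 4 / Real.log 3) (by positivity)
  set Kp : ℝ := (Nat.factorial 16 : ℝ) * (2 / ε) ^ 16 with hKp
  have hKp0 : 0 < Kp := by positivity
  have hpoly : ∀ p : ℕ, (p : ℝ) ^ 16 ≤ Kp * Real.exp (ε / 2 * p) := by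
    intro p
    have h := Real.pow_div_factorial_le_exp (ε / 2 * p) (by positivity) 16
    rw [div_le_iff₀ (by positivity)] at h
    have h2 : (p : ℝ) ^ 16 = (2 / ε) ^ 16 * (ε / 2 * p) ^ 16 := by
      rw [← mul_pow]; congr 1; field_simp
    rw [h2, hKp]
    calc (2 / ε) ^ 16 * (ε / 2 * p) ^ 16 ≤ (2 / ε) ^ 16 * (Real.exp (ε / 2 * p) * (Nat.factorial 16 : ℝ)) :=
          mul_le_mul_of_nonneg_left h (by positivity)
      _ = _ := by ring
  refine ⟨max 1 (2 * Cd * A * K1 * Kp), le_max_left _ _, ?_⟩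
  intro p hp D hD
  have hp1 : (1 : ℝ) ≤ p := by exact_mod_cast hp
  set M : ℝ := K1 * Real.exp (ε / 4 * p) * D with hM
  have hM0 : 0 ≤ M := by positivity
  set 𝒟 : Finset ℕ := ((Finset.range (p + 1)).biUnion fun o =>
    ((2 : ℤ) ^ p - 3 ^ o).natAbs.divisors).filter fun d => (d : ℝ) ≤ M with h𝒟
  set F := (per hp).filter fun x => (freeDen S x : ℝ) ≤ D with hF
  have hmaps : ∀ x ∈ F, x.den ∈ 𝒟 := by
    intro x hx
    rw [hF, mem_filter] at hx
    have hper := (mem_per hp).1 hx.1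
    have hxeq := eq_pt hp hper.2
    set b : ℕ → Bool := fun i => par (T^[i] x) with hb
    have h1 : x.den ∣ ((2 : ℤ) ^ p - 3 ^ O b p).natAbs := by
      conv_lhs => rw [hxeq]
      exact den_pt_dvd p b
    have h2 : (x.den : ℝ) ≤ M := by
      have h3 := den_le_spart S hp b
      rw [← hxeq] at h3
      have h4 := hsp p (O b p) hp (O_le b p)
      have h5 : (x.den : ℝ) ≤ ((∏ q ∈ pr S, q ^ ((2 : ℤ) ^ p - 3 ^ O b p).natAbs.factorization q : ℕ) : ℝ) *
          (freeDen S x : ℝ) := by exact_mod_cast h3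
      refine h5.trans ?_
      rw [hM]
      exact mul_le_mul h4 hx.2 (by positivity) (by positivity)
    rw [h𝒟, mem_filter, mem_biUnion]
    refine ⟨⟨O b p, ?_, ?_⟩, h2⟩
    · rw [mem_range]; have := O_le b p; omega
    · rw [Nat.mem_divisors]
      exact ⟨h1, Int.natAbs_ne_zero.2 (odd_ne (odd_M hp _))⟩
  have hcard𝒟 : (𝒟.card : ℝ) ≤ (p + 1) * (Cd * Real.exp (ε / 4 * p)) := by
    have h1 : 𝒟.card ≤ ∑ o ∈ Finset.range (p + 1), ((2 : ℤ) ^ p - 3 ^ o).natAbs.divisors.card := by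
      rw [h𝒟]
      exact (card_filter_le _ _).trans card_biUnion_le
    have h2 : ∀ o ∈ Finset.range (p + 1), ((((2 : ℤ) ^ p - 3 ^ o).natAbs.divisors.card : ℕ) : ℝ) ≤
        Cd * Real.exp (ε / 4 * p) := by
      intro o ho
      rw [mem_range] at ho
      have h3 := hdiv ((2 : ℤ) ^ p - 3 ^ o).natAbs (Int.natAbs_pos.2 (odd_ne (odd_M hp _)))
      refine h3.trans (mul_le_mul_of_nonneg_left ?_ hCd.le)
      have h4 : ((((2 : ℤ) ^ p - 3 ^ o).natAbs : ℕ) : ℝ) ≤ 3 ^ p := by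
        exact_mod_cast M_le (p := p) (o := o) (by omega)
      refine (Real.rpow_le_rpow (by positivity) h4 (by positivity)).trans ?_
      rw [← Real.rpow_natCast, ← Real.rpow_mul (by norm_num), Real.rpow_def_of_pos (by norm_num)]
      apply Real.exp_le_exp.2
      apply le_of_eq
      field_simp
    calc (𝒟.card : ℝ) ≤ ∑ o ∈ Finset.range (p + 1), ((((2 : ℤ) ^ p - 3 ^ o).natAbs.divisors.card : ℕ) : ℝ) := by
          exact_mod_cast h1
      _ ≤ ∑ _o ∈ Finset.range (p + 1), Cd * Real.exp (ε / 4 * p) := Finset.sum_le_sum h2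
      _ = (p + 1) * (Cd * Real.exp (ε / 4 * p)) := by
          rw [Finset.sum_const, card_range, nsmul_eq_mul]; push_cast; ring
  have hfib : (F.card : ℝ) ≤ ∑ d ∈ 𝒟, (((per hp).filter fun x => x.den = d).card : ℝ) := by
    have h1 : F.card = ∑ d ∈ 𝒟, (F.filter fun x => x.den = d).card :=
      Finset.card_eq_sum_card_fiberwise hmaps
    rw [h1]
    push_cast
    refine Finset.sum_le_sum fun d _ => ?_
    have h2 : (F.filter fun x => x.den = d).card ≤ ((per hp).filter fun x => x.den = d).card := by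
      apply card_le_card
      intro x hx
      rw [mem_filter, hF, mem_filter] at hx
      rw [mem_filter]
      exact ⟨hx.1.1, hx.2⟩
    exact_mod_cast h2
  have hterm : ∀ d ∈ 𝒟, (((per hp).filter fun x => x.den = d).card : ℝ) ≤ A * (p : ℝ) ^ 15 * M := by
    intro d hd
    rw [h𝒟, mem_filter, mem_biUnion] at hd
    obtain ⟨⟨o, -, ho⟩, hdM⟩ := hd
    have hd1 : 1 ≤ d := Nat.pos_of_mem_divisors ho
    exact (hden p hp d hd1).trans (mul_le_mul_of_nonneg_left hdM (by positivity))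
  have hexp : Real.exp (ε / 4 * p) * Real.exp (ε / 4 * p) * Real.exp (ε / 2 * p) = Real.exp (ε * p) := by
    rw [← Real.exp_add, ← Real.exp_add]; congr 1; ring
  calc (F.card : ℝ) ≤ ∑ d ∈ 𝒟, (((per hp).filter fun x => x.den = d).card : ℝ) := hfib
    _ ≤ ∑ _d ∈ 𝒟, A * (p : ℝ) ^ 15 * M := Finset.sum_le_sum hterm
    _ = 𝒟.card * (A * (p : ℝ) ^ 15 * M) := by rw [Finset.sum_const, nsmul_eq_mul]
    _ ≤ ((p + 1) * (Cd * Real.exp (ε / 4 * p))) * (A * (p : ℝ) ^ 15 * M) :=
        mul_le_mul_of_nonneg_right hcard𝒟 (by positivity)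
    _ ≤ ((2 * p) * (Cd * Real.exp (ε / 4 * p))) * (A * (p : ℝ) ^ 15 * M) := by
        apply mul_le_mul_of_nonneg_right _ (by positivity)
        apply mul_le_mul_of_nonneg_right _ (by positivity)
        linarith
    _ = 2 * Cd * A * K1 * (Real.exp (ε / 4 * p) * Real.exp (ε / 4 * p)) * D * (p : ℝ) ^ 16 := by
        rw [hM]; ring
    _ ≤ 2 * Cd * A * K1 * (Real.exp (ε / 4 * p) * Real.exp (ε / 4 * p)) * D *
        (Kp * Real.exp (ε / 2 * p)) := mul_le_mul_of_nonneg_left (hpoly p) (by positivity)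
    _ = (2 * Cd * A * K1 * Kp) * Real.exp (ε * p) * D := by rw [← hexp]; ring
    _ ≤ max 1 (2 * Cd * A * K1 * Kp) * Real.exp (ε * p) * D := by
        apply mul_le_mul_of_nonneg_right _ (by linarith)
        apply mul_le_mul_of_nonneg_right (le_max_right _ _) (Real.exp_pos _).le

end Pool.Agent.U339.SI
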