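import Mathlib

set_option autoImplicit false

/-!
The 3x+1 map on the rational numbers with odd denominator, and its periodic points.
-/

namespace Pool.Agent.U339.SI

/-- The `3x+1` map on the rational numbers (it is used for odd denominators): `x / 2` if the
numerator of `x` is even, and `(3 x + 1) / 2` if it is odd. -/
def T (x : ℚ) : ℚ := if Even x.num then x / 2 else (3 * x + 1) / 2

/-- `x` has odd denominator and `T^p x = x`. -/
def IsPer (p : ℕ) (x : ℚ) : Prop := Odd x.den ∧ T^[p] x = x

/-- The largest divisor of the denominator of `x` which has no prime factor in `S`. -/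
def freeDen (S : Finset ℕ) (x : ℚ) : ℕ :=
  ∏ q ∈ x.den.primeFactors \ S, q ^ x.den.factorization q

/-- The `3x+k` map on the integers: `n / 2` if `n` is even, and `(3 n + k) / 2` if `n` is odd. -/
def Tk (k n : ℤ) : ℤ := if Even n then n / 2 else (3 * n + k) / 2

end Pool.Agent.U339.SI
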