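import Pool.Agent.U339.SI.Tail

set_option autoImplicit false

/-!
The sums of the powers of the denominators.
-/

namespace Pool.Agent.U339.SI

open Finset Filter Topology

lemma zero_mem {p : ℕ} (hp : 1 ≤ p) : (0 : ℚ) ∈ per hp := by
  rw [mem_per]
  refine ⟨by decide, ?_⟩
  have h : T 0 = 0 := by unfold T; simp
  exact Function.iterate_fixed h p

lemma den_le {p : ℕ} (hp : 1 ≤ p) {x : ℚ} (hx : x ∈ per hp) : x.den ≤ 3 ^ p := by
  have hper := (mem_per hp).1 hx
  rw [eq_pt hp hper.2]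
  exact (Nat.le_of_dvd (Int.natAbs_pos.2 (odd_ne (odd_M hp _))) (den_pt_dvd p _)).trans
    (M_le (O_le _ _))

/-- the sum of the powers -/
noncomputable def Z (S : Finset ℕ) (s : ℝ) {p : ℕ} (hp : 1 ≤ p) : ℝ :=
  ∑ x ∈ per hp, (freeDen S x : ℝ) ^ (-s)

lemma Z_lower (S : Finset ℕ) {s : ℝ} (hs : 0 ≤ s) {p : ℕ} (hp : 1 ≤ p) :
    (1 - rr / 2) * (2 : ℝ) ^ (max 0 (1 - s) * p) ≤ Z S s hp := by
  classical
  have hr := rr_pos
  have hr2 := rr_lt
  have hp0 : (0 : ℝ) ≤ p := Nat.cast_nonneg _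
  rcases le_total (1 - s) 0 with h | h
  · rw [max_eq_left h, zero_mul, Real.rpow_zero, mul_one]
    have h1 : (1 : ℝ) ≤ Z S s hp := by
      unfold Z
      have h2 : ((freeDen S 0 : ℕ) : ℝ) ^ (-s) = 1 := by
        have : freeDen S 0 = 1 := by unfold freeDen; simp
        rw [this, Nat.cast_one, Real.one_rpow]
      rw [← h2]
      exact Finset.single_le_sum (f := fun x => (freeDen S x : ℝ) ^ (-s))
        (fun x _ => by positivity) (zero_mem hp)
    linarith
  · rw [max_eq_right h]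
    have hcard : (1 - rr / 2) * (2 : ℝ) ^ p ≤ (((per hp).filter fun x => x.den < 2 ^ p).card : ℝ) := by
      have h1 : ((per hp).filter fun x => x.den < 2 ^ p).card +
          ((per hp).filter fun x => ¬ x.den < 2 ^ p).card = (per hp).card :=
        Finset.card_filter_add_card_filter_not _
      have h2 : ((per hp).filter fun x => ¬ x.den < 2 ^ p) = ((per hp).filter fun x => 2 ^ p ≤ x.den) := by
        apply Finset.filter_congr
        intro x _
        rw [not_lt]
      rw [h2, card_per] at h1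
      have h3 := card_big hp
      have h4 : (((per hp).filter fun x => x.den < 2 ^ p).card : ℝ) +
          (((per hp).filter fun x => 2 ^ p ≤ x.den).card : ℝ) = (2 : ℝ) ^ p := by exact_mod_cast h1
      have h5 : rr ^ p ≤ rr / 2 * (2 : ℝ) ^ p := by
        have h6 : (rr / 2) ^ p ≤ rr / 2 := by
          have := pow_le_pow_of_le_one (a := rr / 2) (by positivity) (by linarith) hp
          simpa using this
        calc rr ^ p = (rr / 2) ^ p * 2 ^ p := by rw [← mul_pow]; congr 1; ring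
          _ ≤ rr / 2 * 2 ^ p := mul_le_mul_of_nonneg_right h6 (by positivity)
      linarith
    calc (1 - rr / 2) * (2 : ℝ) ^ ((1 - s) * p)
        = ((1 - rr / 2) * (2 : ℝ) ^ p) * ((2 : ℝ) ^ p) ^ (-s) := by
          rw [mul_assoc, ← Real.rpow_natCast, ← Real.rpow_mul (by norm_num), ← Real.rpow_add (by norm_num)]
          congr 2; ring
      _ ≤ (((per hp).filter fun x => x.den < 2 ^ p).card : ℝ) * ((2 : ℝ) ^ p) ^ (-s) :=
          mul_le_mul_of_nonneg_right hcard (by positivity)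
      _ = ∑ _x ∈ (per hp).filter fun x => x.den < 2 ^ p, ((2 : ℝ) ^ p) ^ (-s) := by
          rw [Finset.sum_const, nsmul_eq_mul]
      _ ≤ ∑ x ∈ (per hp).filter fun x => x.den < 2 ^ p, (freeDen S x : ℝ) ^ (-s) := by
          refine Finset.sum_le_sum fun x hx => ?_
          rw [mem_filter] at hx
          have h1 : (1 : ℝ) ≤ freeDen S x := by exact_mod_cast freeDen_pos S x
          have h2 : (freeDen S x : ℝ) ≤ (2 : ℝ) ^ p := by
            have := (freeDen_le S x).trans hx.2.le
            exact_mod_cast this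
          exact Real.rpow_le_rpow_of_nonpos (by linarith) h2 (by linarith)
      _ ≤ Z S s hp := by
          unfold Z
          exact Finset.sum_le_sum_of_subset_of_nonneg (filter_subset _ _) fun x _ _ => by positivity

lemma Z_upper (S : Finset ℕ) {s : ℝ} (hs : 0 ≤ s) (ε : ℝ) (hε : 0 < ε) : ∃ K : ℝ, 1 ≤ K ∧
    ∀ (p : ℕ) (hp : 1 ≤ p), Z S s hp ≤ K * p * (2 : ℝ) ^ (ε * p) * (2 : ℝ) ^ (max 0 (1 - s) * p) := by
  classical
  have hl2 : 0 < Real.log 2 := Real.log_pos (by norm_num)
  obtain ⟨K0, hK0, hc⟩ := count S (ε * Real.log 2) (by positivity)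
  refine ⟨4 * K0, by linarith, fun p hp => ?_⟩
  have hp1 : (1 : ℝ) ≤ p := by exact_mod_cast hp
  set m : ℝ := max 0 (1 - s) with hm
  have hm0 : 0 ≤ m := le_max_left _ _
  have hm1 : 1 - s ≤ m := le_max_right _ _
  set L : ℝ := K0 * (2 : ℝ) ^ (ε * p) with hL
  have hpow1 : (1 : ℝ) ≤ (2 : ℝ) ^ (ε * p) := Real.one_le_rpow (by norm_num) (by positivity)
  have hL1 : 1 ≤ L := by rw [hL]; nlinarith
  have hexp : Real.exp (ε * Real.log 2 * p) = (2 : ℝ) ^ (ε * p) := by
    rw [Real.rpow_def_of_pos (by norm_num)]; congr 1; ring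
  have hmaps : ∀ x ∈ per hp, Nat.log 2 (freeDen S x) ∈ Finset.range (2 * p) := by
    intro x hx
    rw [mem_range]
    apply Nat.log_lt_of_lt_pow (by have := freeDen_pos S x; omega)
    calc freeDen S x ≤ 3 ^ p := (freeDen_le S x).trans (den_le hp hx)
      _ < 4 ^ p := Nat.pow_lt_pow_left (by norm_num) (by omega)
      _ = 2 ^ (2 * p) := by rw [pow_mul]; norm_num
  have hfib : Z S s hp = ∑ k ∈ Finset.range (2 * p), ∑ x ∈ (per hp).filter (fun x =>
      Nat.log 2 (freeDen S x) = k), (freeDen S x : ℝ) ^ (-s) := by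
    unfold Z
    exact (Finset.sum_fiberwise_of_maps_to hmaps _).symm
  have hterm : ∀ k ∈ Finset.range (2 * p), ∑ x ∈ (per hp).filter (fun x =>
      Nat.log 2 (freeDen S x) = k), (freeDen S x : ℝ) ^ (-s) ≤ 2 * L * (2 : ℝ) ^ (m * p) := by
    intro k _
    set G := (per hp).filter (fun x => Nat.log 2 (freeDen S x) = k) with hG
    have h1 : ∀ x ∈ G, (freeDen S x : ℝ) ^ (-s) ≤ (2 : ℝ) ^ (-s * k) := by
      intro x hx
      rw [hG, mem_filter] at hx
      have h2 : 2 ^ k ≤ freeDen S x := by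
        rw [← hx.2]
        exact Nat.pow_log_le_self 2 (by have := freeDen_pos S x; omega)
      have h3 : (2 : ℝ) ^ k ≤ freeDen S x := by exact_mod_cast h2
      calc (freeDen S x : ℝ) ^ (-s) ≤ ((2 : ℝ) ^ k) ^ (-s) :=
            Real.rpow_le_rpow_of_nonpos (by positivity) h3 (by linarith)
        _ = (2 : ℝ) ^ (-s * k) := by
            rw [← Real.rpow_natCast, ← Real.rpow_mul (by norm_num)]; congr 1; ring
    have h2 : ∑ x ∈ G, (freeDen S x : ℝ) ^ (-s) ≤ G.card * (2 : ℝ) ^ (-s * k) := by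
      calc _ ≤ ∑ _x ∈ G, (2 : ℝ) ^ (-s * k) := Finset.sum_le_sum h1
        _ = _ := by rw [Finset.sum_const, nsmul_eq_mul]
    refine h2.trans ?_
    have hG1 : (G.card : ℝ) ≤ (2 : ℝ) ^ p := by
      have : G.card ≤ 2 ^ p := (card_filter_le _ _).trans (card_per hp).le
      exact_mod_cast this
    have hG2 : (G.card : ℝ) ≤ L * (2 * (2 : ℝ) ^ k) := by
      have h3 := hc p hp ((2 : ℝ) ^ (k + 1)) (one_le_pow₀ (by norm_num))
      rw [hexp] at h3
      have h4 : G.card ≤ ((per hp).filter fun x => (freeDen S x : ℝ) ≤ (2 : ℝ) ^ (k + 1)).card := by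
        apply card_le_card
        intro x hx
        rw [hG, mem_filter] at hx
        rw [mem_filter]
        refine ⟨hx.1, ?_⟩
        have h5 : freeDen S x < 2 ^ (k + 1) := by
          rw [← hx.2]
          exact Nat.lt_pow_succ_log_self (by norm_num) _
        exact_mod_cast h5.le
      calc (G.card : ℝ) ≤ (((per hp).filter fun x => (freeDen S x : ℝ) ≤ (2 : ℝ) ^ (k + 1)).card : ℝ) := by
            exact_mod_cast h4
        _ ≤ K0 * (2 : ℝ) ^ (ε * p) * (2 : ℝ) ^ (k + 1) := h3
        _ = L * (2 * (2 : ℝ) ^ k) := by rw [hL, pow_succ]; ring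
    rcases le_or_gt k p with hk | hk
    · have hkr : (k : ℝ) ≤ p := by exact_mod_cast hk
      calc (G.card : ℝ) * (2 : ℝ) ^ (-s * k) ≤ (L * (2 * (2 : ℝ) ^ k)) * (2 : ℝ) ^ (-s * k) :=
            mul_le_mul_of_nonneg_right hG2 (by positivity)
        _ = 2 * L * (2 : ℝ) ^ ((1 - s) * k) := by
            rw [show (1 - s) * (k : ℝ) = k + (-s * k) by ring, Real.rpow_add (by norm_num),
              Real.rpow_natCast]
            ring
        _ ≤ 2 * L * (2 : ℝ) ^ (m * p) := by
            apply mul_le_mul_of_nonneg_left _ (by linarith)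
            apply Real.rpow_le_rpow_of_exponent_le (by norm_num)
            calc (1 - s) * (k : ℝ) ≤ m * k := mul_le_mul_of_nonneg_right hm1 (Nat.cast_nonneg _)
              _ ≤ m * p := mul_le_mul_of_nonneg_left hkr hm0
    · have hkr : (p : ℝ) ≤ k := by exact_mod_cast hk.le
      calc (G.card : ℝ) * (2 : ℝ) ^ (-s * k) ≤ (2 : ℝ) ^ p * (2 : ℝ) ^ (-s * k) :=
            mul_le_mul_of_nonneg_right hG1 (by positivity)
        _ = (2 : ℝ) ^ ((p : ℝ) + -s * k) := by
            rw [Real.rpow_add (by norm_num), Real.rpow_natCast]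
        _ ≤ (2 : ℝ) ^ (m * p) := by
            apply Real.rpow_le_rpow_of_exponent_le (by norm_num)
            have h5 : s * (p : ℝ) ≤ s * k := mul_le_mul_of_nonneg_left hkr hs
            have h6 : (1 - s) * (p : ℝ) ≤ m * p := mul_le_mul_of_nonneg_right hm1 (by linarith)
            linarith
        _ ≤ 2 * L * (2 : ℝ) ^ (m * p) := by
            have : 0 < (2 : ℝ) ^ (m * p) := by positivity
            nlinarith
  rw [hfib]
  calc _ ≤ ∑ _k ∈ Finset.range (2 * p), 2 * L * (2 : ℝ) ^ (m * p) := Finset.sum_le_sum hterm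
    _ = 4 * K0 * p * (2 : ℝ) ^ (ε * p) * (2 : ℝ) ^ (m * p) := by
        rw [Finset.sum_const, card_range, nsmul_eq_mul, hL]; push_cast; ring

theorem pressure (S : Finset ℕ) (s : ℝ) (hs : 0 ≤ s) (z : ℕ → ℝ)
    (hz : ∀ (p : ℕ) (hp : 1 ≤ p), z p = Z S s hp) :
    Tendsto (fun p : ℕ => Real.logb 2 (z p) / p) atTop (𝓝 (max 0 (1 - s))) := by
  set m : ℝ := max 0 (1 - s) with hm
  have hr := rr_pos
  have hr2 := rr_lt
  have hc0 : 0 < 1 - rr / 2 := by linarith
  rw [Metric.tendsto_atTop]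
  intro η hη
  obtain ⟨K, hK, hup⟩ := Z_upper S hs (η / 2) (by positivity)
  -- elementary limits
  have hlim1 : Tendsto (fun p : ℕ => Real.logb 2 (1 - rr / 2) / (p : ℝ)) atTop (𝓝 0) :=
    tendsto_const_div_atTop_nhds_zero_nat _
  have hlim2 : Tendsto (fun p : ℕ => Real.logb 2 (K * (p : ℝ)) / (p : ℝ)) atTop (𝓝 0) := by
    have h1 : Tendsto (fun x : ℝ => Real.log x / x) atTop (𝓝 0) := by
      have := Real.isLittleO_log_id_atTop.tendsto_div_nhds_zero
      simpa using this
    have h2 := h1.comp tendsto_natCast_atTop_atTop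
    have h3 : Tendsto (fun p : ℕ => (Real.logb 2 K) / (p : ℝ) + (Real.log (p : ℝ) / p) / Real.log 2) atTop
        (𝓝 (0 + 0 / Real.log 2)) :=
      (tendsto_const_div_atTop_nhds_zero_nat _).add (h2.div_const _)
    rw [zero_div, add_zero] at h3
    refine h3.congr' ?_
    filter_upwards [eventually_ge_atTop 1] with p hp
    have hp1 : (1 : ℝ) ≤ p := by exact_mod_cast hp
    rw [Real.logb, Real.logb, Real.log_mul (by linarith) (by linarith)]
    field_simp
  obtain ⟨N1, hN1⟩ := (Metric.tendsto_atTop.1 hlim1) η hη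
  obtain ⟨N2, hN2⟩ := (Metric.tendsto_atTop.1 hlim2) (η / 2) (by positivity)
  refine ⟨max 1 (max N1 N2), fun p hp => ?_⟩
  have hpp : 1 ≤ p := (le_max_left _ _).trans hp
  have h1 := hN1 p (((le_max_left _ _).trans (le_max_right _ _)).trans hp)
  have h2 := hN2 p (((le_max_right _ _).trans (le_max_right _ _)).trans hp)
  have hp1 : (1 : ℝ) ≤ p := by exact_mod_cast hpp
  have hp0 : (0 : ℝ) < p := by linarith
  rw [Real.dist_eq, sub_zero] at h1 h2
  rw [Real.dist_eq, hz p hpp]
  have hlow := Z_lower S hs hpp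
  have hupp := hup p hpp
  have hZ : 0 < Z S s hpp := lt_of_lt_of_le (by positivity) hlow
  have hl : Real.logb 2 (1 - rr / 2) + m * p ≤ Real.logb 2 (Z S s hpp) := by
    have h3 := (Real.logb_le_logb (b := 2) (by norm_num) (by positivity) hZ).2 hlow
    rw [Real.logb_mul hc0.ne' (by positivity), Real.logb_rpow (by norm_num) (by norm_num)] at h3
    exact h3
  have hu : Real.logb 2 (Z S s hpp) ≤ Real.logb 2 (K * (p : ℝ)) + η / 2 * p + m * p := by
    have h3 := (Real.logb_le_logb (b := 2) (by norm_num) hZ (by positivity)).2 hupp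
    rw [Real.logb_mul (by positivity) (by positivity), Real.logb_mul (by positivity) (by positivity),
      Real.logb_rpow (by norm_num) (by norm_num), Real.logb_rpow (by norm_num) (by norm_num)] at h3
    exact h3
  have hl' : Real.logb 2 (1 - rr / 2) / p + m ≤ Real.logb 2 (Z S s hpp) / p := by
    rw [le_div_iff₀ hp0, add_mul, div_mul_cancel₀ _ hp0.ne']
    exact hl
  have hu' : Real.logb 2 (Z S s hpp) / p ≤ Real.logb 2 (K * (p : ℝ)) / p + η / 2 + m := by
    rw [div_le_iff₀ hp0, add_mul, add_mul, div_mul_cancel₀ _ hp0.ne']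
    exact hu
  rw [abs_lt] at h1 h2 ⊢
  constructor <;> linarith [h1.1, h2.2]

end Pool.Agent.U339.SI
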