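import Pool.Agent.U339.SI.Basic
import Pool.Agent.H319R2.Measure

set_option autoImplicit false

/-!
Denominators are constant along cycles, and every cycle has an element of polynomial size.
-/

namespace Pool.Agent.U339.SI

open Finset

lemma den_T {x : ℚ} (hx : Odd x.den) : (T x).den ∣ x.den := by
  have hx0 : (x.den : ℚ) ≠ 0 := by exact_mod_cast x.den_nz
  have key : ∃ k : ℤ, T x = (k : ℚ) / ((x.den : ℤ) : ℚ) := by
    unfold T
    by_cases h : Even x.num
    · rw [if_pos h]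
      obtain ⟨k, hk⟩ := h
      refine ⟨k, ?_⟩
      conv_lhs => rw [← Rat.num_div_den x, hk]
      push_cast
      field_simp
      ring
    · rw [if_neg h]
      have h1 : Odd x.num := Int.not_even_iff_odd.1 h
      have h2 : Odd ((x.den : ℕ) : ℤ) := by exact_mod_cast hx
      have h3 : Even (3 * x.num + (x.den : ℤ)) :=
        (Int.odd_mul.2 ⟨by decide, h1⟩).add_odd h2
      obtain ⟨k, hk⟩ := h3
      refine ⟨k, ?_⟩
      have hk' : (3 * (x.num : ℚ) + (x.den : ℚ)) = (k : ℚ) + k := by exact_mod_cast hk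
      conv_lhs => rw [← Rat.num_div_den x]
      push_cast
      field_simp
      linarith
  obtain ⟨k, hk⟩ := key
  have h := Rat.den_dvd k (x.den : ℤ)
  rw [Rat.divInt_eq_div, ← hk] at h
  exact_mod_cast h

lemma den_iter {x : ℚ} (hx : Odd x.den) (i : ℕ) : Odd (T^[i] x).den ∧ (T^[i] x).den ∣ x.den := by
  induction i with
  | zero => exact ⟨hx, dvd_refl _⟩
  | succ i ih =>
    rw [Function.iterate_succ_apply']
    have h := den_T ih.1
    exact ⟨by
      obtain ⟨k, hk⟩ := h
      have := ih.1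
      rw [hk] at this
      exact (Nat.odd_mul.1 this).1, h.trans ih.2⟩

lemma den_iter_eq {p : ℕ} {x : ℚ} (hx : IsPer p x) {i : ℕ} (hi : i ≤ p) :
    (T^[i] x).den = x.den := by
  obtain ⟨h1, h2⟩ := den_iter hx.1 i
  refine Nat.dvd_antisymm h2 ?_
  have h3 := (den_iter h1 (p - i)).2
  rw [← Function.iterate_add_apply, Nat.sub_add_cancel hi, hx.2] at h3
  exact h3

lemma eq_iter {p : ℕ} {x : ℚ} (hx : IsPer p x) {i : ℕ} (hi : i ≤ p) :
    x = T^[p - i] (T^[i] x) := by
  rw [← Function.iterate_add_apply, Nat.sub_add_cancel hi, hx.2]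

/-- the change of the logarithm in one step -/
lemma log_step {B : ℝ} (hB : 1 ≤ B) (b : Bool) {y : ℚ} (hy : B < |(y : ℝ)|) :
    |Real.log |((step b y : ℚ) : ℝ)| - Real.log |(y : ℝ)| + Real.log 2 -
      (if b then Real.log 3 else 0)| ≤ 1 / B := by
  have hB0 : 0 < B := by linarith
  have hy0 : 0 < |(y : ℝ)| := by linarith
  have hyne : (y : ℝ) ≠ 0 := abs_pos.1 hy0
  unfold step
  cases b with
  | false =>
    simp only [Bool.false_eq_true, if_false]
    push_cast
    rw [abs_div, Real.log_div hy0.ne' (by norm_num)]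
    rw [show |(2 : ℝ)| = 2 by norm_num]
    rw [show Real.log |(y : ℝ)| - Real.log 2 - Real.log |(y : ℝ)| + Real.log 2 - 0 = 0 by ring]
    rw [abs_zero]
    positivity
  | true =>
    simp only [if_true]
    push_cast
    set t : ℝ := 1 / (3 * (y : ℝ)) with ht
    have htabs : |t| ≤ 1 / (3 * B) := by
      rw [ht, abs_div, abs_one, abs_mul, show |(3 : ℝ)| = 3 by norm_num]
      apply one_div_le_one_div_of_le (by positivity)
      nlinarith
    have ht3 : |t| ≤ 1 / 3 := by
      refine htabs.trans ?_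
      apply one_div_le_one_div_of_le (by norm_num)
      linarith
    have ht1 : 0 < 1 + t := by
      have := (abs_le.1 ht3).1
      linarith
    have h1 : (3 * (y : ℝ) + 1) / 2 = (3 / 2 * (y : ℝ)) * (1 + t) := by
      rw [ht]
      field_simp
    have h2 : Real.log |(3 * (y : ℝ) + 1) / 2| = Real.log 3 - Real.log 2 + Real.log |(y : ℝ)| +
        Real.log (1 + t) := by
      rw [h1, abs_mul, abs_mul, abs_of_pos ht1, show |(3 / 2 : ℝ)| = 3 / 2 by norm_num,
        Real.log_mul (by positivity) ht1.ne', Real.log_mul (by norm_num) hy0.ne',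
        Real.log_div (by norm_num) (by norm_num)]
    rw [h2, show Real.log 3 - Real.log 2 + Real.log |(y : ℝ)| + Real.log (1 + t) -
      Real.log |(y : ℝ)| + Real.log 2 - Real.log 3 = Real.log (1 + t) by ring]
    have h3 : Real.log (1 + t) ≤ |t| := by
      have := Real.log_le_sub_one_of_pos ht1
      have := le_abs_self t
      linarith
    have h4 : -(2 * |t|) ≤ Real.log (1 + t) := by
      have h5 := Real.one_sub_inv_le_log_of_pos ht1
      have h6 : -(2 * |t|) ≤ 1 - (1 + t)⁻¹ := by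
        have h7 : 1 - (1 + t)⁻¹ = t / (1 + t) := by field_simp; ring
        rw [h7, le_div_iff₀ ht1]
        have h8 := abs_le.1 ht3
        rcases le_or_gt 0 t with h | h
        · rw [abs_of_nonneg h]; nlinarith
        · rw [abs_of_neg h]; rw [abs_of_neg h] at ht3; nlinarith
      linarith
    have h9 : 2 * |t| ≤ 1 / B := by
      have : 2 * (1 / (3 * B)) ≤ 1 / B := by
        rw [mul_one_div, div_le_div_iff₀ (by positivity) hB0]
        nlinarith
      linarith
    rw [abs_le]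
    constructor
    · linarith
    · have := abs_nonneg t
      linarith

lemma log_sum {B : ℝ} (hB : 1 ≤ B) (x : ℚ) (n : ℕ) (h : ∀ i < n, B < |((T^[i] x : ℚ) : ℝ)|) :
    |Real.log |((T^[n] x : ℚ) : ℝ)| - Real.log |(x : ℝ)| + n * Real.log 2 -
      (O (fun i => par (T^[i] x)) n : ℕ) * Real.log 3| ≤ n / B := by
  induction n with
  | zero => simp [O]
  | succ n ih =>
    have h1 := ih fun i hi => h i (by omega)
    have h2 := log_step hB (par (T^[n] x)) (h n (Nat.lt_succ_self n))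
    rw [← T_eq, ← Function.iterate_succ_apply' T n x] at h2
    rw [O_succ]
    set L := Real.log |((T^[n + 1] x : ℚ) : ℝ)|
    set M := Real.log |((T^[n] x : ℚ) : ℝ)|
    have h3 : L - Real.log |(x : ℝ)| + ((n + 1 : ℕ) : ℝ) * Real.log 2 -
        ((O (fun i => par (T^[i] x)) n + (if par (T^[n] x) then 1 else 0) : ℕ) : ℝ) * Real.log 3 =
        (M - Real.log |(x : ℝ)| + n * Real.log 2 -
          (O (fun i => par (T^[i] x)) n : ℕ) * Real.log 3) +
        (L - M + Real.log 2 - (if par (T^[n] x) then Real.log 3 else 0)) := by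
      push_cast
      split_ifs <;> ring
    rw [h3]
    refine (abs_add_le _ _).trans ((add_le_add h1 h2).trans ?_)
    push_cast
    rw [add_div]

/-- every cycle has an element of polynomial size -/
theorem exists_small : ∃ A : ℝ, 1 ≤ A ∧ ∀ p : ℕ, 1 ≤ p → ∀ x : ℚ, T^[p] x = x →
    ∃ i < p, |((T^[i] x : ℚ) : ℝ)| ≤ A * (p : ℝ) ^ 14 := by
  obtain ⟨c, hc, hm⟩ := Pool.Agent.H319R2.measure
  refine ⟨2 ^ 13 / c + 1, le_add_of_nonneg_left (by positivity), ?_⟩
  intro p hp x hx
  by_contra hcon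
  push Not at hcon
  have hp1 : (1 : ℝ) ≤ p := by exact_mod_cast hp
  have hp0 : (0 : ℝ) < p := by linarith
  set B : ℝ := (2 ^ 13 / c + 1) * (p : ℝ) ^ 14 with hBdef
  have hp14 : (1 : ℝ) ≤ (p : ℝ) ^ 14 := one_le_pow₀ hp1
  have hc13 : 0 < 2 ^ 13 / c := by positivity
  have hB : 1 ≤ B := by
    rw [hBdef]; nlinarith
  have hB0 : 0 < B := by linarith
  set b : ℕ → Bool := fun i => par (T^[i] x)
  have h1 := log_sum hB x p hcon
  rw [hx, sub_self, zero_add] at h1
  have h2 := hm (p : ℤ) (-(O b p : ℤ)) (Or.inl (by exact_mod_cast (show p ≠ 0 by omega)))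
  have h3 : |((p : ℤ) : ℝ) * Real.log 2 + ((-(O b p : ℤ) : ℤ) : ℝ) * Real.log 3| ≤ p / B := by
    push_cast
    rw [show (p : ℝ) * Real.log 2 + -(O b p : ℝ) * Real.log 3 =
      (p : ℝ) * Real.log 2 - (O b p : ℝ) * Real.log 3 by ring]
    exact h1
  have h4 : (((|(p : ℤ)| + |(-(O b p : ℤ))| : ℤ)) : ℝ) ≤ 2 * p := by
    have h5 : |(p : ℤ)| + |(-(O b p : ℤ))| ≤ 2 * p := by
      rw [abs_neg, Nat.abs_cast, Nat.abs_cast]
      have := O_le b p
      omega
    exact_mod_cast h5
  have h4' : (0 : ℝ) ≤ (((|(p : ℤ)| + |(-(O b p : ℤ))| : ℤ)) : ℝ) := by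
    have : (0 : ℤ) ≤ |(p : ℤ)| + |(-(O b p : ℤ))| := by positivity
    exact_mod_cast this
  have h6 : c ≤ (2 * (p : ℝ)) ^ 13 * (p / B) :=
    h2.trans (mul_le_mul (pow_le_pow_left₀ h4' h4 13) h3 (abs_nonneg _) (by positivity))
  have h7 : (2 * (p : ℝ)) ^ 13 * (p / B) = 2 ^ 13 * (p : ℝ) ^ 14 / B := by ring
  rw [h7, le_div_iff₀ hB0, hBdef] at h6
  have h8 : c * ((2 ^ 13 / c + 1) * (p : ℝ) ^ 14) = 2 ^ 13 * (p : ℝ) ^ 14 + c * (p : ℝ) ^ 14 := by
    field_simp
  rw [h8] at h6
  have : 0 < c * (p : ℝ) ^ 14 := by positivity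
  linarith

/-- the number of the periodic points with given denominator -/
theorem card_den : ∃ A : ℝ, 1 ≤ A ∧ ∀ (p : ℕ) (hp : 1 ≤ p) (d : ℕ), 1 ≤ d →
    (((per hp).filter fun x => x.den = d).card : ℝ) ≤ A * (p : ℝ) ^ 15 * d := by
  classical
  obtain ⟨A, hA, hs⟩ := exists_small
  refine ⟨3 * A, by linarith, fun p hp d hd => ?_⟩
  have hp1 : (1 : ℝ) ≤ p := by exact_mod_cast hp
  have hd1 : (1 : ℝ) ≤ d := by exact_mod_cast hd
  set B : ℝ := A * (p : ℝ) ^ 14 with hB
  have hB1 : 1 ≤ B := by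
    have : (1 : ℝ) ≤ (p : ℝ) ^ 14 := one_le_pow₀ hp1
    rw [hB]; nlinarith
  set F := (per hp).filter fun x => x.den = d with hF
  have hFp : ∀ x ∈ F, IsPer p x ∧ x.den = d := fun x hx => by
    rw [hF, mem_filter] at hx
    exact ⟨(mem_per hp).1 hx.1, hx.2⟩
  have hch : ∀ x : ℚ, ∃ i : ℕ, x ∈ F → i < p ∧ |((T^[i] x : ℚ) : ℝ)| ≤ B := by
    intro x
    by_cases hx : x ∈ F
    · obtain ⟨i, hi, h⟩ := hs p hp x (hFp x hx).1.2
      exact ⟨i, fun _ => ⟨hi, h⟩⟩
    · exact ⟨0, fun h => absurd h hx⟩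
  choose ι hι using hch
  set N : ℤ := ⌊B * d⌋ with hN
  have hcard : F.card ≤ (Finset.range p ×ˢ Finset.Icc (-N) N).card := by
    refine Finset.card_le_card_of_injOn (fun x => (ι x, (T^[ι x] x).num)) ?_ ?_
    · intro x hx
      have hx' : x ∈ F := hx
      obtain ⟨h1, h2⟩ := hι x hx'
      obtain ⟨h3, h4⟩ := hFp x hx'
      have hden : (T^[ι x] x).den = d := by rw [den_iter_eq h3 h1.le, h4]
      have h5 : |((T^[ι x] x).num : ℝ)| ≤ B * d := by
        have h6 : ((T^[ι x] x : ℚ) : ℝ) = ((T^[ι x] x).num : ℝ) / d := by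
          conv_lhs => rw [← Rat.num_div_den (T^[ι x] x)]
          rw [hden]
          push_cast
          rfl
        rw [h6, abs_div, abs_of_pos (show (0 : ℝ) < d by linarith), div_le_iff₀ (by linarith)] at h2
        exact h2
      have h7 := abs_le.1 h5
      have h8 : (T^[ι x] x).num ≤ N := Int.le_floor.2 h7.2
      have h9 : -(T^[ι x] x).num ≤ N := Int.le_floor.2 (by push_cast; linarith)
      simp only [coe_product, Set.mem_prod, coe_range, Set.mem_Iio, coe_Icc, Set.mem_Icc]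
      exact ⟨h1, by linarith, h8⟩
    · intro x hx y hy hxy
      have hx' : x ∈ F := hx
      have hy' : y ∈ F := hy
      simp only [Prod.mk.injEq] at hxy
      obtain ⟨h1, h2⟩ := hxy
      have e1 : (T^[ι x] x).den = d := by rw [den_iter_eq (hFp x hx').1 (hι x hx').1.le, (hFp x hx').2]
      have e2 : (T^[ι y] y).den = d := by rw [den_iter_eq (hFp y hy').1 (hι y hy').1.le, (hFp y hy').2]
      have e3 : T^[ι x] x = T^[ι y] y := Rat.ext h2 (e1.trans e2.symm)
      rw [eq_iter (hFp x hx').1 (hι x hx').1.le, eq_iter (hFp y hy').1 (hι y hy').1.le, e3, h1]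
  rw [card_product, card_range, Int.card_Icc] at hcard
  have hN0 : 0 ≤ N := Int.floor_nonneg.2 (by positivity)
  have hNle : (N : ℝ) ≤ B * d := Int.floor_le _
  have h10 : (((N + 1 - (-N)).toNat : ℕ) : ℝ) = 2 * N + 1 := by
    have : (((N + 1 - (-N)).toNat : ℕ) : ℤ) = 2 * N + 1 := by
      rw [Int.toNat_of_nonneg (by omega)]; ring
    exact_mod_cast this
  have h11 : (F.card : ℝ) ≤ p * (((N + 1 - (-N)).toNat : ℕ) : ℝ) := by exact_mod_cast hcard
  rw [h10] at h11
  have hBd : 1 ≤ B * d := by nlinarith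
  calc (F.card : ℝ) ≤ p * (2 * N + 1) := h11
    _ ≤ p * (3 * (B * d)) := by
        apply mul_le_mul_of_nonneg_left _ (by linarith)
        linarith
    _ = 3 * A * (p : ℝ) ^ 15 * d := by rw [hB]; ring

end Pool.Agent.U339.SI
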