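import Pool.Agent.U339.SI.Count

set_option autoImplicit false

/-!
Typical denominators and the sums of the powers of the denominators.
-/

namespace Pool.Agent.U339.SI

open Finset Filter Topology

lemma pow_O (a : ℝ) (b : ℕ → Bool) (n : ℕ) :
    a ^ O b n = ∏ i ∈ Finset.range n, (if b i then a else 1) := by
  induction n with
  | zero => simp [O]
  | succ n ih =>
    rw [O_succ, Finset.prod_range_succ, pow_add, ih]
    split_ifs <;> simp

lemma sum_pow_O (a : ℝ) {p : ℕ} (hp : 1 ≤ p) :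
    ∑ w : Fin p → Bool, a ^ O (ext hp w) p = (1 + a) ^ p := by
  classical
  have h1 : ∀ w : Fin p → Bool, a ^ O (ext hp w) p = ∏ i : Fin p, (if w i then a else 1) := by
    intro w
    rw [pow_O, Finset.prod_range]
    exact Finset.prod_congr rfl fun i _ => by rw [ext_lt]
  rw [Finset.sum_congr rfl fun w _ => h1 w]
  have h2 := Finset.prod_univ_sum (fun _ : Fin p => (Finset.univ : Finset Bool))
    (fun _ j => if j then a else (1 : ℝ))
  rw [Fintype.piFinset_univ] at h2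
  rw [← h2]
  simp [add_comm]

/-- the growth rate of the number of the points with large denominator -/
noncomputable def rr : ℝ := (1 + Real.sqrt 3) / Real.sqrt 2

lemma rr_pos : 0 < rr := by unfold rr; positivity

lemma rr_lt : rr < 2 := by
  unfold rr
  have h2 : 0 < Real.sqrt 2 := by positivity
  rw [div_lt_iff₀ h2]
  have h3 : Real.sqrt 3 < 1.7321 := by
    rw [Real.sqrt_lt' (by norm_num)]; norm_num
  have h4 : 1.4142 < Real.sqrt 2 := by
    rw [Real.lt_sqrt (by norm_num)]; norm_num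
  linarith

lemma two_pow_le {p : ℕ} (hp : 1 ≤ p) (b : ℕ → Bool) (h : 2 ^ p ≤ (pt p b).den) :
    (2 : ℝ) ^ p ≤ 3 ^ O b p := by
  by_contra hcon
  push Not at hcon
  have h1 : (3 : ℤ) ^ O b p < 2 ^ p := by exact_mod_cast hcon
  have h2 := Nat.le_of_dvd (Int.natAbs_pos.2 (odd_ne (odd_M hp _))) (den_pt_dvd p b)
  have h3 : (((2 : ℤ) ^ p - 3 ^ O b p).natAbs : ℤ) = 2 ^ p - 3 ^ O b p := by
    rw [Int.natCast_natAbs, abs_of_pos (by linarith)]
  have h4 : ((2 ^ p : ℕ) : ℤ) ≤ (((2 : ℤ) ^ p - 3 ^ O b p).natAbs : ℤ) := by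
    exact_mod_cast h.trans h2
  rw [h3] at h4
  push_cast at h4
  have : (0 : ℤ) < 3 ^ O b p := by positivity
  linarith

lemma card_big {p : ℕ} (hp : 1 ≤ p) :
    (((per hp).filter fun x => 2 ^ p ≤ x.den).card : ℝ) ≤ rr ^ p := by
  classical
  have h1 : (((per hp).filter fun x => 2 ^ p ≤ x.den).card : ℝ) =
      ∑ x ∈ per hp, (if 2 ^ p ≤ x.den then (1 : ℝ) else 0) := by
    rw [Finset.sum_ite, Finset.sum_const_zero, add_zero, Finset.sum_const, nsmul_eq_mul, mul_one]
  rw [h1, sum_per hp]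
  have h2 : ∀ w : Fin p → Bool, (if 2 ^ p ≤ (pt p (ext hp w)).den then (1 : ℝ) else 0) ≤
      Real.sqrt 3 ^ O (ext hp w) p / Real.sqrt 2 ^ p := by
    intro w
    split_ifs with h
    · have h3 := two_pow_le hp _ h
      rw [le_div_iff₀ (by positivity), one_mul]
      rw [← pow_le_pow_iff_left₀ (by positivity) (by positivity) (two_ne_zero), ← pow_mul, ← pow_mul,
        mul_comm p 2, mul_comm _ 2, pow_mul, pow_mul, Real.sq_sqrt (by norm_num),
        Real.sq_sqrt (by norm_num)]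
      exact h3
    · positivity
  refine (Finset.sum_le_sum fun w _ => h2 w).trans ?_
  rw [← Finset.sum_div, sum_pow_O, rr, div_pow]

/-- typical denominators -/
theorem typical (S : Finset ℕ) (ε : ℝ) (hε : 0 < ε) : ∃ δ K : ℝ, 0 < δ ∧ 0 ≤ K ∧
    ∀ (p : ℕ) (hp : 1 ≤ p),
      (((per hp).filter fun x => ¬ ((2 : ℝ) ^ ((1 - ε) * p) ≤ freeDen S x ∧ x.den < 2 ^ p)).card : ℝ) ≤
        K * (2 : ℝ) ^ ((1 - δ) * p) := by
  classical
  have hl2 : 0 < Real.log 2 := Real.log_pos (by norm_num)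
  obtain ⟨K0, hK0, hc⟩ := count S (ε / 2 * Real.log 2) (by positivity)
  set δ0 : ℝ := 1 - Real.logb 2 rr with hδ0
  have hδ0p : 0 < δ0 := by
    rw [hδ0, sub_pos, Real.logb_lt_iff_lt_rpow (by norm_num) rr_pos, Real.rpow_one]
    exact rr_lt
  refine ⟨min (ε / 2) δ0, K0 + 1, lt_min (by positivity) hδ0p, by linarith, ?_⟩
  intro p hp
  have hp0 : (0 : ℝ) ≤ p := Nat.cast_nonneg _
  set δ := min (ε / 2) δ0 with hδ
  have hsplit : ((per hp).filter fun x => ¬ ((2 : ℝ) ^ ((1 - ε) * p) ≤ freeDen S x ∧ x.den < 2 ^ p)) ⊆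
      ((per hp).filter fun x => (freeDen S x : ℝ) ≤ max 1 ((2 : ℝ) ^ ((1 - ε) * p)) ∧
        ¬ ((2 : ℝ) ^ ((1 - ε) * p) ≤ freeDen S x)) ∪
      ((per hp).filter fun x => 2 ^ p ≤ x.den) := by
    intro x hx
    rw [mem_filter] at hx
    rw [mem_union, mem_filter, mem_filter]
    rw [not_and_or] at hx
    rcases hx.2 with h | h
    · left
      refine ⟨hx.1, ?_, h⟩
      push Not at h
      exact h.le.trans (le_max_right _ _)
    · right
      exact ⟨hx.1, not_lt.1 h⟩
  have hbig : rr ^ p ≤ (2 : ℝ) ^ ((1 - δ) * p) := by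
    have h1 : rr = (2 : ℝ) ^ (Real.logb 2 rr) := (Real.rpow_logb (by norm_num) (by norm_num) rr_pos).symm
    rw [h1, ← Real.rpow_natCast, ← Real.rpow_mul (by norm_num)]
    apply Real.rpow_le_rpow_of_exponent_le (by norm_num)
    apply mul_le_mul_of_nonneg_right _ hp0
    have := min_le_right (ε / 2) δ0
    rw [← hδ] at this
    linarith
  have hsmall : (((per hp).filter fun x => (freeDen S x : ℝ) ≤ max 1 ((2 : ℝ) ^ ((1 - ε) * p)) ∧
        ¬ ((2 : ℝ) ^ ((1 - ε) * p) ≤ freeDen S x)).card : ℝ) ≤ K0 * (2 : ℝ) ^ ((1 - δ) * p) := by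
    rcases le_or_gt ((2 : ℝ) ^ ((1 - ε) * p)) 1 with h1 | h1
    · have hemp : ((per hp).filter fun x => (freeDen S x : ℝ) ≤ max 1 ((2 : ℝ) ^ ((1 - ε) * p)) ∧
          ¬ ((2 : ℝ) ^ ((1 - ε) * p) ≤ freeDen S x)) = ∅ := by
        rw [Finset.filter_eq_empty_iff]
        intro x _ h
        apply h.2
        have : (1 : ℝ) ≤ freeDen S x := by exact_mod_cast freeDen_pos S x
        linarith
      rw [hemp, card_empty]
      push_cast
      positivity
    · have h2 := hc p hp ((2 : ℝ) ^ ((1 - ε) * p)) h1.le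
      have h3 : ((per hp).filter fun x => (freeDen S x : ℝ) ≤ max 1 ((2 : ℝ) ^ ((1 - ε) * p)) ∧
          ¬ ((2 : ℝ) ^ ((1 - ε) * p) ≤ freeDen S x)).card ≤
          ((per hp).filter fun x => (freeDen S x : ℝ) ≤ (2 : ℝ) ^ ((1 - ε) * p)).card := by
        apply card_le_card
        intro x hx
        rw [mem_filter] at hx ⊢
        rw [max_eq_right h1.le] at hx
        exact ⟨hx.1, hx.2.1⟩
      have h4 : Real.exp (ε / 2 * Real.log 2 * p) = (2 : ℝ) ^ (ε / 2 * p) := by
        rw [Real.rpow_def_of_pos (by norm_num)]; congr 1; ring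
      rw [h4] at h2
      calc _ ≤ (((per hp).filter fun x => (freeDen S x : ℝ) ≤ (2 : ℝ) ^ ((1 - ε) * p)).card : ℝ) := by
            exact_mod_cast h3
        _ ≤ K0 * (2 : ℝ) ^ (ε / 2 * p) * (2 : ℝ) ^ ((1 - ε) * p) := h2
        _ = K0 * (2 : ℝ) ^ ((1 - ε / 2) * p) := by
            rw [mul_assoc, ← Real.rpow_add (by norm_num)]; congr 2; ring
        _ ≤ K0 * (2 : ℝ) ^ ((1 - δ) * p) := by
            apply mul_le_mul_of_nonneg_left _ (by linarith)
            apply Real.rpow_le_rpow_of_exponent_le (by norm_num)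
            apply mul_le_mul_of_nonneg_right _ hp0
            have := min_le_left (ε / 2) δ0
            rw [← hδ] at this
            linarith
  have h5 := (card_le_card hsplit).trans (card_union_le _ _)
  have h6 := card_big hp
  calc _ ≤ ((((per hp).filter fun x => (freeDen S x : ℝ) ≤ max 1 ((2 : ℝ) ^ ((1 - ε) * p)) ∧
        ¬ ((2 : ℝ) ^ ((1 - ε) * p) ≤ freeDen S x)).card +
        ((per hp).filter fun x => 2 ^ p ≤ x.den).card : ℕ) : ℝ) := by exact_mod_cast h5
    _ ≤ K0 * (2 : ℝ) ^ ((1 - δ) * p) + (2 : ℝ) ^ ((1 - δ) * p) := by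
        push_cast
        exact add_le_add hsmall (h6.trans hbig)
    _ = (K0 + 1) * (2 : ℝ) ^ ((1 - δ) * p) := by ring

end Pool.Agent.U339.SI
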